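import Pool.Agent.Q157.OM.Stm

/-!
# Project OM (helper157), job OM-expo
-/

set_option autoImplicit false

namespace Pool.Agent.Q153.OM

open Finset Pool.Agent.Q157.OM

theorem expo (h1 : S_closed) (h2 : S_SW) (h3 : S_bad) (h4 : S_count) : S_expo := by
  intro r Ps hr hP hH
  have key : ∀ i : ℕ, ∃ C : ℕ, i < r → ∀ k : ℕ,
      Nat.card {π : Equiv.Perm (Fin k) // Occ r Ps i k π} ≤ C ^ k := by
    intro i
    by_cases hi : i < r
    · obtain ⟨K, τ, hτ⟩ := h3 r Ps hr hP hH i hi
      obtain ⟨C, hC⟩ := h2 K τ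
      refine ⟨C, fun _ k => le_trans ?_ (hC k)⟩
      refine Nat.card_le_card_of_injective
        (fun π : {π : Equiv.Perm (Fin k) // Occ r Ps i k π} =>
          (⟨π.1, fun hc => hτ (h1 r Ps i k K π.1 τ π.2 hc)⟩ :
            {π : Equiv.Perm (Fin k) // ¬ Contains π τ})) ?_
      intro a b hab
      simp only [Subtype.mk.injEq] at hab
      exact Subtype.ext hab
    · exact ⟨0, fun h => absurd h hi⟩
  choose C hC using key
  refine ⟨r ^ r * ∏ i ∈ range r, max 1 (C i), ?_, ?_⟩
  · refine Nat.succ_le_of_lt (Nat.mul_pos (pow_pos hr r) (Finset.prod_pos fun i _ => ?_))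
    exact lt_of_lt_of_le one_pos (le_max_left _ _)
  · intro k
    refine (h4 r k Ps hr).trans ?_
    rw [mul_pow, ← pow_mul, ← Finset.prod_pow]
    refine Nat.mul_le_mul_left _ (Finset.prod_le_prod' fun i hi => ?_)
    exact (hC i (mem_range.1 hi) k).trans (Nat.pow_le_pow_left (le_max_right _ _) k)

end Pool.Agent.Q153.OM
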